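import Pool.Agent.L7h10.AB.Stm

set_option autoImplicit false

/-! Project AB (helper10), part SMALL: degrees one and two. -/

namespace Pool.Agent.L7h74.AB

open Polynomial Pool.Agent.L7h10.AB

theorem iff_one {K : Type} [Field K] (f : K[X]) :
    (f.Monic ∧ f.natDegree = 1 ∧ f.coeff (1 - 1) = 0 ∧ SB f) ↔ f = X := by
  constructor
  · rintro ⟨h1, h2, h3, _⟩
    have := h1.as_sum
    rw [h2] at this
    rw [this]
    simp at h3
    simp [h3]
  · rintro rfl
    refine ⟨monic_X, natDegree_X, by simp, ?_, ?_⟩
    · intro r _
      simp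
    · intro r s hr hs _
      simp at hr hs
      rw [hr, hs]

theorem prim_two {K : Type} [Field K] (d : K) (r : AlgebraicClosure K) :
    aeval r (prim (X ^ 2 + C d : K[X])) =
      algebraMap K (AlgebraicClosure K) d * r +
        algebraMap K (AlgebraicClosure K) (1 / (2 + 1)) * r ^ 3 := by
  have h0 : (X ^ 2 + C d : K[X]).natDegree = 2 := natDegree_X_pow_add_C
  unfold prim
  rw [h0]
  simp only [Finset.sum_range_succ, Finset.sum_range_zero, coeff_add, coeff_X_pow, coeff_C]
  simp [map_add, map_mul]

theorem sb_two {K : Type} [Field K] (h2 : (2 : K) ≠ 0) (h3 : (2 : K) + 1 ≠ 0) (d : K) :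
    SB (X ^ 2 + C d : K[X]) ↔ d ≠ 0 := by
  have g2 : (2 : AlgebraicClosure K) ≠ 0 := by
    have := (map_ne_zero (algebraMap K (AlgebraicClosure K))).mpr h2
    rwa [map_ofNat] at this
  constructor
  · rintro ⟨ha, _⟩ rfl
    have := ha 0 (by simp)
    apply this
    simp
  · intro hd
    have gd : algebraMap K (AlgebraicClosure K) d ≠ 0 := by
      simpa using hd
    refine ⟨?_, ?_⟩
    · intro r hr
      have hr' : r ^ 2 + algebraMap K (AlgebraicClosure K) d = 0 := by simpa using hr
      have hr0 : r ≠ 0 := by
        rintro rfl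
        apply gd
        simpa using hr'
      have : aeval r (derivative (X ^ 2 + C d : K[X])) = 2 * r := by
        simp
        left
        norm_num
      rw [this]
      exact mul_ne_zero g2 hr0
    · intro r s hr hs he
      have hr' : r ^ 2 + algebraMap K (AlgebraicClosure K) d = 0 := by simpa using hr
      have hs' : s ^ 2 + algebraMap K (AlgebraicClosure K) d = 0 := by simpa using hs
      rw [prim_two, prim_two] at he
      set D := algebraMap K (AlgebraicClosure K) d with hD
      set t := algebraMap K (AlgebraicClosure K) (1 / (2 + 1)) with ht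
      have h3t : 3 * t = 1 := by
        have : ((2 : K) + 1) * (1 / (2 + 1)) = 1 := by field_simp
        have := congrArg (algebraMap K (AlgebraicClosure K)) this
        rw [map_mul, ← ht, map_add, map_one, map_ofNat] at this
        rw [← this]
        ring
      have e1 : D * r + t * r ^ 3 = D * r * (1 - t) := by
        have : r ^ 3 = r ^ 2 * r := by ring
        rw [this, show r ^ 2 = -D by linear_combination hr']
        ring
      have e2 : D * s + t * s ^ 3 = D * s * (1 - t) := by
        have : s ^ 3 = s ^ 2 * s := by ring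
        rw [this, show s ^ 2 = -D by linear_combination hs']
        ring
      rw [e1, e2] at he
      have h4 : 2 * D * (r - s) = 0 := by
        linear_combination 3 * he + D * (r - s) * h3t
      rcases mul_eq_zero.mp h4 with h | h
      · exact absurd h (mul_ne_zero g2 gd)
      · exact sub_eq_zero.mp h

theorem iff_two {K : Type} [Field K] (h2 : (2 : K) ≠ 0) (h3 : (2 : K) + 1 ≠ 0) (f : K[X]) :
    (f.Monic ∧ f.natDegree = 2 ∧ f.coeff (2 - 1) = 0 ∧ SB f) ↔
      f ∈ (fun d : K => (X ^ 2 + C d : K[X])) '' {d | d ≠ 0} := by
  constructor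
  · rintro ⟨h1, hn, hc, hS⟩
    have := h1.as_sum
    rw [hn] at this
    have hf : f = X ^ 2 + C (f.coeff 0) := by
      conv_lhs => rw [this]
      simp only [Finset.sum_range_succ, Finset.sum_range_zero]
      simp at hc
      simp [hc]
    refine ⟨f.coeff 0, ?_, hf.symm⟩
    rw [hf] at hS
    exact (sb_two h2 h3 _).mp hS
  · rintro ⟨d, hd, rfl⟩
    refine ⟨monic_X_pow_add_C d (by norm_num), natDegree_X_pow_add_C, ?_,
      (sb_two h2 h3 d).mpr hd⟩
    simp [coeff_X_pow, coeff_C]

theorem s_SMALL : S_SMALL := by
  intro K _ _ p _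
  constructor
  · intro _
    unfold Ncen
    rw [Nat.card_congr (Equiv.subtypeEquivRight fun f : K[X] => iff_one f)]
    simp
  · intro hp
    have h2 : (2 : K) ≠ 0 := by
      intro h
      have := (CharP.cast_eq_zero_iff K p 2).mp (by exact_mod_cast h)
      have := Nat.le_of_dvd (by norm_num) this
      omega
    have h3 : (2 : K) + 1 ≠ 0 := by
      intro h
      have h' : ((3 : ℕ) : K) = 0 := by
        push_cast
        rw [← h]
        norm_num
      have := (CharP.cast_eq_zero_iff K p 3).mp h'
      have := Nat.le_of_dvd (by norm_num) this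
      omega
    unfold Ncen
    rw [Nat.card_congr (Equiv.subtypeEquivRight fun f : K[X] => iff_two h2 h3 f)]
    have hinj : Function.Injective (fun d : K => (X ^ 2 + C d : K[X])) := by
      intro a b hab
      simpa using hab
    have h5 := Nat.card_image_of_injective hinj {d : K | d ≠ 0}
    have h6 : Nat.card {d : K // d ≠ 0} = Nat.card K - 1 := by
      rw [← Nat.card_congr (unitsEquivNeZero (G₀ := K)), Nat.card_units]
    calc _ = Nat.card {d : K | d ≠ 0} := h5
      _ = _ := h6

end Pool.Agent.L7h74.AB
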